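import Pool.Agent.Helper94.UP.Sheet

open scoped ZeroAtInfty ContDiff NNReal
open Set Filter Topology MeasureTheory

namespace Pool.Agent.Helper94.UP

open Pool.Agent.Helper94.UF Pool.Agent.Helper94.SR

theorem ht_shr_lip {t : ℝ} (ht : 0 ≤ t) (a b : ℝ) :
    |(a - Pool.Agent.Helper94.UF.clip t a) - (b - Pool.Agent.Helper94.UF.clip t b)| ≤ |a - b| := by
  unfold Pool.Agent.Helper94.UF.clip
  rcases abs_cases (a - b) with ⟨h, _⟩ | ⟨h, _⟩ <;> rw [h, abs_le] <;>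
    simp only [max_def, min_def] <;> constructor <;> split_ifs <;> linarith

theorem ht_bdd {Γ : Type*} {φ : Γ → ℝ} (hφ : IsC0 φ) : ∃ C : ℝ, 0 ≤ C ∧ ∀ γ, |φ γ| ≤ C := by
  obtain ⟨C, hC⟩ := ((hφ 1 one_pos).image fun γ => |φ γ|).bddAbove
  refine ⟨max C 1, le_max_of_le_right zero_le_one, fun γ => ?_⟩
  by_cases h : 1 < |φ γ|
  · exact le_max_of_le_left (hC ⟨γ, h, rfl⟩)
  · exact le_max_of_le_right (not_lt.1 h)

theorem stHT.{u, v} : ST_HT.{u, v} := by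
  intro k X _ _ Γ K f R δ hR hδ hf
  set t : ℝ := δ * Real.exp (-2) with ht
  have ht0 : 0 < t := by positivity
  have hpos : ∀ φ : Γ → ℝ, ∀ s ∈ hvals K f R t φ, 0 ≤ s := by
    rintro φ s ⟨x, r, hr, -, rfl⟩
    have := hf x
    positivity
  have hbdd : ∀ φ : Γ → ℝ, BddBelow (hvals K f R t φ) := fun φ => ⟨0, fun s hs => hpos φ s hs⟩
  have hne : ∀ φ : Γ → ℝ, IsC0 φ → (hvals K f R t φ).Nonempty := by
    intro φ hφ
    obtain ⟨C, hC0, hC⟩ := ht_bdd hφ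
    obtain ⟨C', hC0', hC'⟩ := ht_bdd (K.isC0 0)
    refine ⟨f 0 + R * (C + C'), 0, C + C', by linarith, fun γ => ?_, rfl⟩
    have h1 : |shr t φ γ| ≤ C := by
      have h2 := ht_shr_lip ht0.le (φ γ) 0
      have h3 : Pool.Agent.Helper94.UF.clip t 0 = 0 := by
        apply clip_of_abs_le
        rw [abs_zero]
        exact ht0.le
      rw [h3, sub_zero, sub_zero, sub_zero] at h2
      exact h2.trans (hC γ)
    calc |shr t φ γ - K.Φ 0 γ| ≤ |shr t φ γ| + |K.Φ 0 γ| := abs_sub _ _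
      _ ≤ C + C' := add_le_add h1 (hC' γ)
  have hstep : ∀ φ φ' : Γ → ℝ, IsC0 φ' → ∀ τ, 0 ≤ τ → (∀ γ, |φ γ - φ' γ| ≤ τ) →
      sInf (hvals K f R t φ) ≤ sInf (hvals K f R t φ') + R * τ := by
    intro φ φ' hφ' τ hτ h
    rw [← sub_le_iff_le_add]
    refine le_csInf (hne φ' hφ') ?_
    rintro s ⟨x, r, hr, h1, rfl⟩
    rw [sub_le_iff_le_add]
    refine csInf_le (hbdd φ) ⟨x, r + τ, by linarith, fun γ => ?_, by ring⟩
    have h2 : |shr t φ γ - shr t φ' γ| ≤ τ := (ht_shr_lip ht0.le (φ γ) (φ' γ)).trans (h γ)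
    calc |shr t φ γ - K.Φ x γ| = |(shr t φ' γ - K.Φ x γ) + (shr t φ γ - shr t φ' γ)| := by
          congr 1; ring
      _ ≤ |shr t φ' γ - K.Φ x γ| + |shr t φ γ - shr t φ' γ| := abs_add_le _ _
      _ ≤ r + τ := add_le_add (h1 γ) h2
  have hlip : ∀ φ φ' : Γ → ℝ, IsC0 φ → IsC0 φ' → ∀ τ, 0 ≤ τ → (∀ γ, |φ γ - φ' γ| ≤ τ) →
      |Hf K f R δ φ - Hf K f R δ φ'| ≤ R * τ := by
    intro φ φ' hφ hφ' τ hτ h
    have h1 := hstep φ φ' hφ' τ hτ h
    have h2 := hstep φ' φ hφ τ hτ (fun γ => by rw [abs_sub_comm]; exact h γ)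
    have h3 : |min 1 (sInf (hvals K f R t φ)) - min 1 (sInf (hvals K f R t φ'))| ≤
        |sInf (hvals K f R t φ) - sInf (hvals K f R t φ')| := by
      have := abs_min_sub_min_le_max 1 (sInf (hvals K f R t φ)) 1 (sInf (hvals K f R t φ'))
      simpa using this
    refine h3.trans ?_
    rw [abs_le]
    constructor <;> linarith
  refine ⟨⟨?_, ?_, ⟨R, hR, hlip⟩, ?_⟩, hlip⟩
  · intro φ hφ
    exact le_min zero_le_one (le_csInf (hne φ hφ) fun s hs => hpos φ s hs)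
  · intro φ _
    exact min_le_left _ _
  · intro φ φ' _ _ G h h1 h2
    have h3 : shr t φ = shr t φ' := by
      funext γ
      by_cases hγ : γ ∈ G
      · change φ γ - Pool.Agent.Helper94.UF.clip t (φ γ) =
          φ' γ - Pool.Agent.Helper94.UF.clip t (φ' γ)
        rw [h γ hγ]
      · change φ γ - Pool.Agent.Helper94.UF.clip t (φ γ) =
          φ' γ - Pool.Agent.Helper94.UF.clip t (φ' γ)
        rw [clip_of_abs_le (h1 γ hγ), clip_of_abs_le (h2 γ hγ), sub_self, sub_self]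
    unfold Hf hvals
    rw [← ht, h3]

end Pool.Agent.Helper94.UP
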